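import Pool.Agent.H43.TateC.Conv

/-!
# MP_0fca13_ag: the Tate conjecture in characteristic `p` and trilinear forms, dimension by dimension

The cones of item 4 are `∑_{(i, a, b) ∈ E} x_i y_a z_b = 0` over `F_p`, with `d + 2` variables `x`, any
numbers of variables `y`, `z`, and any finite set `E` of triples: all coefficients are `1`.
-/

set_option autoImplicit false

namespace Pool.Agent.H43.Old.TateCubics

open Pool.Agent.H43.TateC MvPolynomial

theorem result (p : ℕ) [Fact p.Prime] (T : Theory p) (d : ℕ) :
    List.TFAE
      [ -- smooth projective varieties over finitely generated fields of characteristic `p`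
        ∀ X : T.W.SP, T.W.dim X ≤ d → T.TateX X,
        -- smooth projective varieties over finite fields of characteristic `p`
        ∀ X : T.W.SP, T.W.Finite X → T.W.dim X ≤ d → T.TateX X,
        -- affine schemes of finite type over `F_p`
        ∀ (A : Type) [CommRing A] [Algebra (ZMod p) A] [Algebra.FiniteType (ZMod p) A],
          ringKrullDim A ≤ d → T.Tate A,
        -- cones of trilinear forms with `d + 2` variables `x` and coefficients `0`, `1`
        ∀ (m n : ℕ) (E : Finset (Fin (d + 2) × Fin m × Fin n)),
          T.Tate (MvPolynomial (Fin (d + 2) ⊕ Fin m ⊕ Fin n) (ZMod p) ⧸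
            Ideal.span {(∑ e ∈ E, X (Sum.inl e.1) * X (Sum.inr (Sum.inl e.2.1)) *
              X (Sum.inr (Sum.inr e.2.2)) :
                MvPolynomial (Fin (d + 2) ⊕ Fin m ⊕ Fin n) (ZMod p))}) ] := by
  tfae_have 1 → 2 := fun h X _ hX => h X hX
  tfae_have 2 → 3 := fun h => T.all_of_tateX h
  tfae_have 3 → 1 := fun h X hX => T.tateX_of_all h X hX
  tfae_have 3 → 4 := fun h => tri_of_tate (T := T) h
  tfae_have 4 → 3 := fun h => tate_of_tri (T := T) h
  tfae_finish

end Pool.Agent.H43.Old.TateCubics
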